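import Pool.Agent.H30.BV.Targets

/-!
MP_04ff0f_nt, second theorem, module PM: passage to the primitive character.
-/

set_option autoImplicit false

open Finset Real ArithmeticFunction
open scoped Nat

namespace Pool.Agent.H58.BV

open Pool.Agent.H30.BV
open Pool.Agent.H27.LS (hat hat_nonneg hat_le_one)

theorem wx_nonneg (X : ℝ) (n : ℕ) : 0 ≤ wx X n :=
  mul_nonneg vonMangoldt_nonneg (hat_nonneg _)

theorem wx_le (X : ℝ) (n : ℕ) : wx X n ≤ Λ n := by
  unfold wx
  exact mul_le_of_le_one_right vonMangoldt_nonneg (hat_le_one _)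

theorem cv_norm_le {q : ℕ} (χ : DirichletCharacter ℂ q) (n : ℕ) : ‖cv χ n‖ ≤ 1 :=
  DirichletCharacter.norm_le_one χ _

open Classical in
/-- powers of one prime -/
theorem pm_pow (p N : ℕ) (hp : p.Prime) (hN : 1 ≤ N) :
    ∑ n ∈ Icc 1 N, (if ∃ j, 1 ≤ j ∧ n = p ^ j then Real.log p else 0) ≤ Real.log N := by
  rw [← Finset.sum_filter, Finset.sum_const, nsmul_eq_mul]
  have h1 : ((Icc 1 N).filter fun n => ∃ j, 1 ≤ j ∧ n = p ^ j).card ≤ Nat.log p N := by
    have h2 : ((Icc 1 N).filter fun n => ∃ j, 1 ≤ j ∧ n = p ^ j) ⊆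
        (Icc 1 (Nat.log p N)).image fun j => p ^ j := by
      intro n hn
      obtain ⟨hn1, j, hj, rfl⟩ := Finset.mem_filter.1 hn
      refine Finset.mem_image.2 ⟨j, Finset.mem_Icc.2 ⟨hj, ?_⟩, rfl⟩
      exact Nat.le_log_of_pow_le hp.one_lt (Finset.mem_Icc.1 hn1).2
    refine (Finset.card_le_card h2).trans (Finset.card_image_le.trans ?_)
    simp
  have hlp : 0 ≤ Real.log p := Real.log_natCast_nonneg p
  have h3 : (((Icc 1 N).filter fun n => ∃ j, 1 ≤ j ∧ n = p ^ j).card : ℝ) * Real.log p ≤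
      (Nat.log p N : ℝ) * Real.log p :=
    mul_le_mul_of_nonneg_right (by exact_mod_cast h1) hlp
  have h4 : (Nat.log p N : ℝ) * Real.log p = Real.log ((p ^ Nat.log p N : ℕ) : ℝ) := by
    push_cast
    rw [Real.log_pow]
  have h5 : Real.log ((p ^ Nat.log p N : ℕ) : ℝ) ≤ Real.log N := by
    refine Real.log_le_log ?_ ?_
    · have : 0 < p ^ Nat.log p N := pow_pos hp.pos _
      exact_mod_cast this
    · exact_mod_cast Nat.pow_log_le_self p (by omega)
  linarith

/-- prime powers which are not coprime to `d` -/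
theorem pm_sum (d N : ℕ) (hd : 1 ≤ d) (hN : 1 ≤ N) :
    ∑ n ∈ Icc 1 N, (if n.Coprime d then 0 else Λ n) ≤ d.primeFactors.card * Real.log N := by
  classical
  have h1 : ∀ n ∈ Icc 1 N, (if n.Coprime d then 0 else Λ n) ≤
      ∑ p ∈ d.primeFactors, (if ∃ j, 1 ≤ j ∧ n = p ^ j then Real.log p else 0) := by
    intro n hn
    have hnn : 0 ≤ ∑ p ∈ d.primeFactors, (if ∃ j, 1 ≤ j ∧ n = p ^ j then Real.log (p : ℝ) else 0) := by
      refine Finset.sum_nonneg fun p _ => ?_
      split
      · exact Real.log_natCast_nonneg p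
      · exact le_rfl
    split
    · exact hnn
    · rename_i hcop
      by_cases hpp : IsPrimePow n
      · obtain ⟨p, j, hp, hj, rfl⟩ := (isPrimePow_nat_iff n).1 hpp
        have hpd : p ∣ d := by
          by_contra hcon
          exact hcop (Nat.Coprime.pow_left j ((Nat.Prime.coprime_iff_not_dvd hp).2 hcon))
        have hmem : p ∈ d.primeFactors := Nat.mem_primeFactors.2 ⟨hp, hpd, by omega⟩
        rw [vonMangoldt_apply_pow hj.ne', vonMangoldt_apply_prime hp]
        have h2 := Finset.single_le_sum (f := fun q => if ∃ i, 1 ≤ i ∧ p ^ j = q ^ i then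
          Real.log (q : ℝ) else 0) (fun q _ => by
            split
            · exact Real.log_natCast_nonneg q
            · exact le_rfl) hmem
        refine le_trans ?_ h2
        rw [if_pos ⟨j, hj, rfl⟩]
      · rw [vonMangoldt_eq_zero_iff.2 hpp]
        exact hnn
  refine (Finset.sum_le_sum h1).trans ?_
  rw [Finset.sum_comm]
  have h2 : ∑ p ∈ d.primeFactors, ∑ n ∈ Icc 1 N,
      (if ∃ j, 1 ≤ j ∧ n = p ^ j then Real.log (p : ℝ) else 0) ≤
      ∑ p ∈ d.primeFactors, Real.log N :=
    Finset.sum_le_sum fun p hp => pm_pow p N (Nat.prime_of_mem_primeFactors hp) hN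
  rw [Finset.sum_const, nsmul_eq_mul] at h2
  exact h2

theorem two_pow_card_primeFactors_le (d : ℕ) (hd : 1 ≤ d) : 2 ^ d.primeFactors.card ≤ d := by
  have h1 : ∏ p ∈ d.primeFactors, p ∣ d := Nat.prod_primeFactors_dvd d
  have h2 : ∏ p ∈ d.primeFactors, p ≤ d := Nat.le_of_dvd hd h1
  refine le_trans ?_ h2
  rw [← Finset.prod_const]
  exact Finset.prod_le_prod' fun p hp => (Nat.prime_of_mem_primeFactors hp).two_le

theorem pm : T_PM := by
  intro X d χ hX hd hdX
  have hX0 : 0 < X := by linarith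
  have hN1 : 1 ≤ NX X := by
    unfold NX
    exact Nat.one_le_ceil_iff.2 (by linarith)
  unfold TX
  rw [← Finset.sum_sub_distrib]
  have h1 : ∀ n ∈ Icc 1 (NX X), ‖(wx X n : ℂ) * cv χ n - (wx X n : ℂ) * cv χ.primitiveCharacter n‖ ≤
      (if n.Coprime d then 0 else Λ n) := by
    intro n _
    rw [← mul_sub, norm_mul, Complex.norm_real, Real.norm_eq_abs, abs_of_nonneg (wx_nonneg X n)]
    split
    · rename_i hcop
      have h2 : cv χ.primitiveCharacter n = cv χ n := by
        unfold cv
        have h3 := χ.primitiveCharacter_apply_of_isCoprime (a := (n : ℤ))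
          (Nat.isCoprime_iff_coprime.2 hcop)
        push_cast at h3
        exact h3
      rw [h2, sub_self, norm_zero, mul_zero]
    · rename_i hcop
      have h2 : cv χ n = 0 := by
        unfold cv
        refine MulChar.map_nonunit χ ?_
        rw [ZMod.isUnit_iff_coprime]
        exact hcop
      rw [h2, zero_sub, norm_neg]
      calc wx X n * ‖cv χ.primitiveCharacter n‖ ≤ wx X n * 1 :=
            mul_le_mul_of_nonneg_left (cv_norm_le _ _) (wx_nonneg X n)
        _ ≤ Λ n := by rw [mul_one]; exact wx_le X n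
  refine (norm_sum_le _ _).trans ((Finset.sum_le_sum h1).trans ((pm_sum d (NX X) hd hN1).trans ?_))
  have hlX : 0 < Real.log X := Real.log_pos (by linarith)
  have hl2 : (1 / 2 : ℝ) < Real.log 2 := by
    have := Real.log_two_gt_d9
    linarith
  have hNX : Real.log (NX X) ≤ 3 * Real.log X := by
    have h2 : ((NX X : ℕ) : ℝ) ≤ X ^ 3 := by
      have h3 : ((NX X : ℕ) : ℝ) < 3 * X + 1 := Nat.ceil_lt_add_one (by linarith)
      have h4 : 3 * X + 1 ≤ X ^ 3 := by nlinarith [mul_nonneg hX0.le hX0.le]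
      linarith
    have h3 : Real.log (NX X) ≤ Real.log (X ^ 3) :=
      Real.log_le_log (by exact_mod_cast hN1) h2
    rw [Real.log_pow] at h3
    push_cast at h3
    exact h3
  have hc : (d.primeFactors.card : ℝ) * Real.log 2 ≤ Real.log X := by
    have h2 : ((2 ^ d.primeFactors.card : ℕ) : ℝ) ≤ X :=
      le_trans (by exact_mod_cast two_pow_card_primeFactors_le d hd) hdX
    have h3 := Real.log_le_log (by positivity) h2
    push_cast at h3
    rw [Real.log_pow] at h3
    exact h3
  have hc2 : (d.primeFactors.card : ℝ) ≤ 2 * Real.log X := by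
    have : (0 : ℝ) ≤ d.primeFactors.card := Nat.cast_nonneg _
    nlinarith
  calc (d.primeFactors.card : ℝ) * Real.log (NX X) ≤ (2 * Real.log X) * (3 * Real.log X) :=
        mul_le_mul hc2 hNX (Real.log_natCast_nonneg _) (by positivity)
    _ ≤ 8 * Real.log X ^ 2 := by nlinarith

end Pool.Agent.H58.BV
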