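import Pool.Agent.H30.BV.Targets

/-!
MP_04ff0f_nt, second theorem, module DY: dyadic blocks.
-/

set_option autoImplicit false

open Finset Real ArithmeticFunction
open scoped Nat

namespace Pool.Agent.H58.BV

open Pool.Agent.H30.BV

theorem SP_nonneg (X : ℝ) (q : ℕ) : 0 ≤ SP X q := by
  unfold SP
  refine finsum_nonneg fun χ => ?_
  split
  · exact norm_nonneg _
  · exact le_rfl

theorem sum_SP_eq (X : ℝ) (Q : ℕ) : ∑ q ∈ Ico 2 (Q + 1), SP X q = ∑ x ∈ PC Q, ‖TX X (cv x.2)‖ := by
  classical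
  unfold PC
  rw [Finset.sum_sigma]
  have h1 : ∑ q ∈ Ico 2 (Q + 1), SP X q = ∑ n ∈ Ico 1 Q, SP X (n + 1) := by
    rw [Finset.sum_Ico_add' (fun q => SP X q) 1 Q 1]
  rw [h1]
  refine Finset.sum_congr rfl fun n _ => ?_
  unfold SP
  rw [finsum_eq_sum_of_fintype, Finset.sum_filter]

theorem dy (hMV : T_MV) : T_DY := by
  obtain ⟨C, hC, hMV⟩ := hMV
  refine ⟨4 * C, by positivity, fun X Q₀ D hX hQ hD => ?_⟩
  have hX0 : 0 < X := by linarith
  set K : ℝ := C * X * Real.log X ^ 2 with hK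
  have hK0 : 0 ≤ K := by positivity
  -- one block
  have block : ∀ a b : ℕ, 1 ≤ a → (b : ℝ) ^ 8 ≤ X →
      ∑ q ∈ Ioc a b, SP X q / √(q : ℝ) ≤ K / √(a : ℝ) := by
    intro a b ha hb
    have ha0 : (0 : ℝ) < a := by exact_mod_cast ha
    have hs : 0 < √(a : ℝ) := Real.sqrt_pos.2 ha0
    have h1 : ∑ q ∈ Ioc a b, SP X q / √(q : ℝ) ≤ ∑ q ∈ Ioc a b, SP X q / √(a : ℝ) := by
      refine Finset.sum_le_sum fun q hq => ?_
      have hq' : (a : ℝ) ≤ q := by
        have := (Finset.mem_Ioc.1 hq).1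
        exact_mod_cast this.le
      exact div_le_div_of_nonneg_left (SP_nonneg X q) hs (Real.sqrt_le_sqrt hq')
    have h2 : ∑ q ∈ Ioc a b, SP X q / √(a : ℝ) = (∑ q ∈ Ioc a b, SP X q) / √(a : ℝ) := by
      rw [Finset.sum_div]
    have h3 : ∑ q ∈ Ioc a b, SP X q ≤ ∑ q ∈ Ico 2 (b + 1), SP X q := by
      refine Finset.sum_le_sum_of_subset_of_nonneg ?_ fun q _ _ => SP_nonneg X q
      intro q hq
      have := Finset.mem_Ioc.1 hq
      exact Finset.mem_Ico.2 ⟨by omega, by omega⟩
    rw [sum_SP_eq] at h3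
    have h4 := hMV X b hX hb
    rw [h2] at h1
    exact h1.trans (div_le_div_of_nonneg_right (h3.trans h4) hs.le)
  have key : ∀ I a : ℕ, 1 ≤ a → D ≤ 2 ^ I * a →
      ∑ q ∈ Ioc a D, SP X q / √(q : ℝ) ≤ 4 * K / √(a : ℝ) := by
    intro I
    induction I with
    | zero =>
      intro a ha hDa
      rw [pow_zero, one_mul] at hDa
      rw [Finset.Ioc_eq_empty (by omega), Finset.sum_empty]
      positivity
    | succ I ih =>
      intro a ha hDa
      have ha0 : (0 : ℝ) < a := by exact_mod_cast ha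
      have hs : 0 < √(a : ℝ) := Real.sqrt_pos.2 ha0
      have hD0 : (0 : ℝ) ≤ D := Nat.cast_nonneg D
      rcases le_total D (2 * a) with h | h
      · have hb : (D : ℝ) ^ 8 ≤ X := by
          refine le_trans (pow_le_pow_left₀ hD0 ?_ 8) hD
          linarith
        refine (block a D ha hb).trans ?_
        exact div_le_div_of_nonneg_right (by linarith) hs.le
      · have hb : (((2 * a : ℕ)) : ℝ) ^ 8 ≤ X := by
          refine le_trans (pow_le_pow_left₀ (by positivity) ?_ 8) hD
          have : (((2 * a : ℕ)) : ℝ) ≤ D := by exact_mod_cast h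
          linarith
        have h1 := block a (2 * a) ha hb
        have h2 := ih (2 * a) (by omega) (by rw [pow_succ, mul_assoc] at hDa; exact hDa)
        have h3 : ∑ q ∈ Ioc a D, SP X q / √(q : ℝ) =
            ∑ q ∈ Ioc a (2 * a), SP X q / √(q : ℝ) + ∑ q ∈ Ioc (2 * a) D, SP X q / √(q : ℝ) := by
          rw [← Finset.sum_union]
          · rw [Finset.Ioc_union_Ioc_eq_Ioc (by omega) h]
          · rw [Finset.disjoint_left]
            intro q hq1 hq2
            have := Finset.mem_Ioc.1 hq1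
            have := Finset.mem_Ioc.1 hq2
            omega
        have h4 : 4 * K / √(((2 * a : ℕ)) : ℝ) ≤ 3 * K / √(a : ℝ) := by
          have h5 : √(((2 * a : ℕ)) : ℝ) = √2 * √(a : ℝ) := by
            push_cast
            rw [Real.sqrt_mul (by norm_num)]
          have h6 : (4 / 3 : ℝ) ≤ √2 := by
            rw [Real.le_sqrt' (by norm_num)]
            norm_num
          rw [h5, div_le_div_iff₀ (by positivity) hs]
          nlinarith [mul_nonneg hK0 hs.le, mul_le_mul_of_nonneg_right h6 (mul_nonneg hK0 hs.le)]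
        have h7 : K / √(a : ℝ) + 3 * K / √(a : ℝ) = 4 * K / √(a : ℝ) := by ring
        rw [h3]
        linarith
  have h1 := key D Q₀ hQ (by
    have h2 : D < 2 ^ D := Nat.lt_two_pow_self
    nlinarith)
  have h2 : 4 * C * X * Real.log X ^ 2 = 4 * K := by rw [hK]; ring
  rw [h2]
  exact h1

end Pool.Agent.H58.BV
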