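import Pool.Agent.H30.BV.Targets

/-!
MP_04ff0f_nt, second theorem, module RO: square roots of two.
-/

set_option autoImplicit false

open Finset Real ArithmeticFunction
open scoped Nat

namespace Pool.Agent.H58.BV

open Pool.Agent.H30.BV
open Pool.Agent.H30.PF (S8 pr)

/-- number of square roots of two -/
noncomputable def Rd (d : ℕ) : ℕ := Nat.card {x : ZMod d // x ^ 2 = 2}

theorem ro_dvd (d a : ℕ) : (d : ℤ) ∣ (a : ℤ) ^ 2 - 2 ↔ ((a : ZMod d)) ^ 2 = 2 := by
  have h := ZMod.intCast_eq_intCast_iff_dvd_sub 2 ((a : ℤ) ^ 2) d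
  rw [← h]
  push_cast
  exact eq_comm

theorem ro_count (d : ℕ) (hd : 0 < d) :
    ((range d).filter (fun a : ℕ => (d : ℤ) ∣ (a : ℤ) ^ 2 - 2)).card = Rd d := by
  classical
  haveI : NeZero d := ⟨hd.ne'⟩
  unfold Rd
  rw [Nat.card_eq_fintype_card, Fintype.card_subtype]
  refine Finset.card_bij (fun a _ => (a : ZMod d)) ?_ ?_ ?_
  · intro a ha
    obtain ⟨-, h⟩ := Finset.mem_filter.1 ha
    exact Finset.mem_filter.2 ⟨Finset.mem_univ _, (ro_dvd d a).1 h⟩
  · intro a ha b hb hab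
    have h1 := Finset.mem_range.1 (Finset.mem_filter.1 ha).1
    have h2 := Finset.mem_range.1 (Finset.mem_filter.1 hb).1
    have h3 := (ZMod.natCast_eq_natCast_iff a b d).1 hab
    exact Nat.ModEq.eq_of_lt_of_lt h3 h1 h2
  · intro x hx
    obtain ⟨-, h⟩ := Finset.mem_filter.1 hx
    have hv : ((ZMod.val x : ℕ) : ZMod d) = x := ZMod.natCast_zmod_val x
    refine ⟨ZMod.val x, Finset.mem_filter.2 ⟨Finset.mem_range.2 (ZMod.val_lt x), ?_⟩, hv⟩
    rw [ro_dvd, hv]
    exact h

theorem Rd_mul {m n : ℕ} (h : m.Coprime n) : Rd (m * n) = Rd m * Rd n := by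
  unfold Rd
  rw [← Nat.card_prod]
  refine Nat.card_congr ?_
  refine (Equiv.subtypeEquiv (ZMod.chineseRemainder h).toEquiv
    (q := fun y : ZMod m × ZMod n => y.1 ^ 2 = 2 ∧ y.2 ^ 2 = 2) ?_).trans
    (Equiv.subtypeProdEquivProd (p := fun x : ZMod m => x ^ 2 = 2)
      (q := fun x : ZMod n => x ^ 2 = 2))
  intro x
  constructor
  · intro hx
    have h1 : (ZMod.chineseRemainder h x) ^ 2 = 2 := by
      rw [← map_pow, hx, map_ofNat]
    exact ⟨congrArg Prod.fst h1, congrArg Prod.snd h1⟩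
  · rintro ⟨h1, h2⟩
    apply (ZMod.chineseRemainder h).injective
    rw [map_pow, map_ofNat]
    exact Prod.ext h1 h2

theorem Rd_prime {p : ℕ} (hp : p.Prime) (h2 : p ≠ 2) : Rd p = if S8 p then 2 else 0 := by
  haveI : Fact p.Prime := ⟨hp⟩
  unfold Rd
  split
  · rename_i h
    obtain ⟨x, hx⟩ := (ZMod.exists_sq_eq_two_iff h2).2 h
    have hset : {y : ZMod p | y ^ 2 = 2} = {x, -x} := by
      ext y
      simp only [Set.mem_setOf_eq, Set.mem_insert_iff, Set.mem_singleton_iff]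
      rw [hx, sq]
      exact mul_self_eq_mul_self_iff
    have h3 : Nat.card {y : ZMod p // y ^ 2 = 2} = ({y : ZMod p | y ^ 2 = 2} : Set (ZMod p)).ncard :=
      rfl
    rw [h3, hset, Set.ncard_pair]
    intro hcon
    have h4 : (2 : ZMod p) * x = 0 := by
      rw [two_mul]
      nth_rewrite 1 [hcon]
      exact neg_add_cancel x
    have h5 : (2 : ZMod p) ≠ 0 := by
      intro h6
      have h7 : ((2 : ℕ) : ZMod p) = 0 := by exact_mod_cast h6
      rw [ZMod.natCast_eq_zero_iff] at h7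
      exact h2 ((Nat.prime_dvd_prime_iff_eq hp Nat.prime_two).1 h7)
    rcases mul_eq_zero.1 h4 with h6 | h6
    · exact h5 h6
    · rw [h6, mul_zero] at hx
      exact h5 hx
  · rename_i h
    rw [Nat.card_eq_zero]
    left
    refine ⟨fun y => h ((ZMod.exists_sq_eq_two_iff h2).1 ⟨y.1, ?_⟩)⟩
    rw [← sq]
    exact y.2.symm

theorem Rd_eq (d : ℕ) : Squarefree d → Odd d →
    (Rd d : ℝ) = ∏ p ∈ d.primeFactors, (if S8 p then (2 : ℝ) else 0) := by
  induction d using Nat.recOnPosPrimePosCoprime with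
  | zero => intro _ h; simp at h
  | one =>
    intro _ _
    rw [Nat.primeFactors_one, Finset.prod_empty]
    have h1 : Rd 1 = 1 := by
      unfold Rd
      rw [Nat.card_eq_one_iff_unique]
      exact ⟨⟨fun a b => Subtype.ext (Subsingleton.elim _ _)⟩, ⟨⟨0, Subsingleton.elim _ _⟩⟩⟩
    rw [h1, Nat.cast_one]
  | prime_pow p n hp hn =>
    intro hsq hodd
    have hn1 : n = 1 := ((Nat.squarefree_pow_iff hp.one_lt.ne' hn.ne').1 hsq).2
    subst hn1
    rw [pow_one] at hodd ⊢
    have h2 : p ≠ 2 := by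
      rintro rfl
      exact absurd hodd (by decide)
    rw [Rd_prime hp h2, hp.primeFactors, Finset.prod_singleton]
    split <;> simp
  | coprime a b ha hb hab iha ihb =>
    intro hsq hodd
    have ho := Nat.odd_mul.1 hodd
    have hsa : Squarefree a := hsq.squarefree_of_dvd (dvd_mul_right a b)
    have hsb : Squarefree b := hsq.squarefree_of_dvd (dvd_mul_left b a)
    rw [Rd_mul hab, Nat.cast_mul, iha hsa ho.1, ihb hsb ho.2, Nat.Coprime.primeFactors_mul hab,
      Finset.prod_union hab.disjoint_primeFactors]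

theorem ro : T_RO := by
  intro d hsq hodd
  have hd : 0 < d := hodd.pos
  refine ⟨?_, fun a ha => ?_⟩
  · rw [ro_count d hd]
    exact Rd_eq d hsq hodd
  · refine Nat.Coprime.symm (Nat.coprime_of_dvd fun q hq hqd hqa => ?_)
    have h1 : (q : ℤ) ∣ (a : ℤ) ^ 2 - 2 := (Int.natCast_dvd_natCast.2 hqd).trans ha
    have h2 : (q : ℤ) ∣ (a : ℤ) ^ 2 := dvd_pow (Int.natCast_dvd_natCast.2 hqa) (by norm_num)
    have h3 : (q : ℤ) ∣ 2 := by
      have := dvd_sub h2 h1
      simpa using this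
    have h4 : q ∣ 2 := by exact_mod_cast h3
    have h5 : q = 2 := (Nat.prime_dvd_prime_iff_eq hq Nat.prime_two).1 h4
    subst h5
    exact (Nat.not_even_iff_odd.2 hodd) (even_iff_two_dvd.2 hqd)

end Pool.Agent.H58.BV
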